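import Pool.Agent.Lib.MP_f80667_ag.Ob.CvD
import Pool.Agent.Lib.MP_f80667_ag.Dq.Fin5

/-! Smooth intersections of two quadrics in `P^4` over number fields. -/

open Polynomial Matrix IsDedekindDomain NumberField
open scoped LinearAlgebra.Projectivization

namespace Ob

open ZC Tq Dp

section exp

variable {K : Type} [Field K] {n : ℕ} {κ κ' : Type} {f : κ → MvPolynomial (Fin n) K}
  {q : κ' → MvPolynomial (Fin n) K}

theorem nsmul_cls {z : Z1 K f} {e : ℕ} :
    e • G1.cls z = 0 ↔ e • z.1 ∈ ZC.ratEq (AlgebraicClosure K) f := by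
  have h1 : e • G1.cls z = 0 ↔ (QuotientAddGroup.mk (e • (show D0 K f from z)) :
      D0 K f ⧸ (ZC.ratEq (AlgebraicClosure K) f).addSubgroupOf (D0 K f)) = 0 := Iff.rfl
  rw [h1, QuotientAddGroup.eq_zero_iff, AddSubgroup.mem_addSubgroupOf]
  rfl

theorem nsmul_clsb {z : Z1 K f} {e : ℕ} :
    e • G1b.cls z = 0 ↔ e • z.1 ∈ ZC.ratEq (AlgebraicClosure K) f ⊔
      ZC.normCyc (AlgebraicClosure K) f := by
  have h1 : e • G1b.cls z = 0 ↔ (QuotientAddGroup.mk (e • (show D0 K f from z)) :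
      D0 K f ⧸ (ZC.ratEq (AlgebraicClosure K) f ⊔
        ZC.normCyc (AlgebraicClosure K) f).addSubgroupOf (D0 K f)) = 0 := Iff.rfl
  rw [h1, QuotientAddGroup.eq_zero_iff, AddSubgroup.mem_addSubgroupOf]
  rfl

end exp

section tr

variable {F : Type} [Field F] [NumberField F] {n : ℕ} {κ κ' : Type}
  {f : κ → MvPolynomial (Fin n) F} {q : κ' → MvPolynomial (Fin n) F}

theorem exp_tr (h : ∀ (K : Type) [Field K] [Algebra F K], Same (hE K f) (hE K q)) {e : ℕ}
    (hq : ∀ a : FA q, e • a = 0) (a : FA f) : e • a = 0 := by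
  obtain ⟨z, rfl⟩ := clA_surj a
  have h1 := hq (clA (trZ h z))
  refine Prod.ext (funext fun v => ?_) (funext fun v => ?_)
  · have h2 : e • G1.cls (tr (h (FK F v)) (z.1 v)) = 0 := congrFun (congrArg Prod.fst h1) v
    have h3 : e • G1.cls (z.1 v) = 0 := by
      rw [nsmul_cls] at h2 ⊢
      rw [(h (FK F v)).ratEq]
      exact h2
    exact h3
  · have h2 : e • G1b.cls (tr (h (IK F v)) (z.2 v)) = 0 := congrFun (congrArg Prod.snd h1) v
    have h3 : e • G1b.cls (z.2 v) = 0 := by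
      rw [nsmul_clsb] at h2 ⊢
      rw [(h (IK F v)).ratEq, (h (IK F v)).normCyc]
      exact h2
    exact h3

end tr

section five

variable {F : Type} [Field F] [NumberField F]

omit [NumberField F] in
theorem Pl_hom (A B : Matrix (Fin 5) (Fin 5) F) : ∀ i, (Pl A B i).IsHomogeneous 2 := by
  have hm : ∀ H : Matrix (Fin 5) (Fin 5) F, (ml H).IsHomogeneous 2 := by
    intro H
    refine MvPolynomial.IsHomogeneous.sum _ _ _ fun i _ =>
      MvPolynomial.IsHomogeneous.sum _ _ _ fun j _ => ?_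
    have h1 := ((MvPolynomial.isHomogeneous_C (Fin 5) (H i j)).mul
      ((MvPolynomial.isHomogeneous_X F i).mul (MvPolynomial.isHomogeneous_X F j)))
    simpa using h1
  intro i
  fin_cases i
  · exact hm A
  · exact hm B

/-- A vector with invertible discriminants. -/
theorem exists_w {A B : Matrix (Fin 5) (Fin 5) F} (hs : Sm (AlgebraicClosure F) A B)
    (hB : ND A B (0 : F) 1) : ∃ w : Fin 5 → F, IsCoprime (Dq.chp A B) (Dq.dlp A B w) := by
  obtain ⟨hmon, hdeg⟩ := Dq.mf_monic hB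
  obtain ⟨hchp, -⟩ := Dq.chp_mf hB
  have hsep : (Dq.chp A B).Separable := (Dq.sep_of_sm hs hB).2
  have hmfs : (Dq.mf A B).Separable := hsep.of_dvd ⟨_, by rw [hchp, mul_comm]⟩
  obtain ⟨ι, _, K, _, _, _, θ, hres⟩ := Dq.exists_res hmon hmfs
  obtain ⟨w, hw⟩ := Dq.exists_wv hs hB hres
  refine ⟨w, ?_⟩
  have hc : -(B + B.transpose).det ≠ 0 := neg_ne_zero.2 (Dq.det_ne_zero_B hB)
  rw [hchp, ← hres.prod]
  refine IsCoprime.mul_left ?_ (IsCoprime.prod_left fun i _ => ?_)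
  · refine ⟨C (-(B + B.transpose).det)⁻¹, 0, ?_⟩
    rw [← C_mul, inv_mul_cancel₀ hc, C_1, zero_mul, add_zero]
  · refine ((minpoly.irreducible (hres.int i)).coprime_iff_not_dvd).2 fun hd => hw i ?_
    obtain ⟨p, hp⟩ := hd
    rw [hp, map_mul, minpoly.aeval, zero_mul]

/-- **Five variables.** -/
theorem q5 (f : Fin 2 → MvPolynomial (Fin 5) F) (hf : ∀ i, (f i).IsHomogeneous 2)
    (hs : ∀ x : Fin 5 → AlgebraicClosure F, x ≠ 0 → Zer f (AlgebraicClosure F) x →
      LinearIndependent (AlgebraicClosure F)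
        fun (i : Fin 2) (j : Fin 5) => MvPolynomial.aeval x (MvPolynomial.pderiv j (f i)))
    (hh : ∀ j, ∃ d, (f j).IsHomogeneous d) :
    (∃ S : Finset (HeightOneSpectrum (𝓞 F)), ∀ v ∉ S,
      Subsingleton (G1 (FK F v) (hE (FK F v) f))) ∧
    (∀ a : FA f, Orth f a → ∃ c : Z1 F f, clA (dgA hh c) = a) ∧
    ∀ z : LHat (FA f), (∀ a, z.Rep 2 a → Orth f a) → ImD hh z := by
  obtain ⟨A, hA⟩ := exists_mat (f 0) (hf 0)
  obtain ⟨B, hB⟩ := exists_mat (f 1) (hf 1)
  have hfP : f = Pl A B := by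
    funext i
    fin_cases i
    · exact hA
    · exact hB
  subst hfP
  obtain ⟨M, hM, hM1, hM2⟩ := exists_basis (sm_closure A B hs) (by norm_num)
  obtain ⟨A', hA'⟩ : ∃ A', A' = nA A B M := ⟨_, rfl⟩
  obtain ⟨B', hB'⟩ : ∃ B', B' = nB A B M := ⟨_, rfl⟩
  have h0 : Same (Pl A B) (Pl A' B') := by
    rw [hA', hB']
    exact same_n hM
  have h : ∀ (K : Type) [Field K] [Algebra F K], Same (hE K (Pl A B)) (hE K (Pl A' B')) := by
    intro K _ _
    rw [hA', hB']
    exact same_nE hM K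
  have hs' : ∀ x : Fin 5 → AlgebraicClosure F, x ≠ 0 → Zer (Pl A' B') (AlgebraicClosure F) x →
      LinearIndependent (AlgebraicClosure F) fun (i : Fin 2) (j : Fin 5) =>
        MvPolynomial.aeval x (MvPolynomial.pderiv j (Pl A' B' i)) := by
    rw [hA', hB']
    exact sm_n hM hs
  have hnA : ND A' B' (1 : F) 0 := by
    rw [hA', hB']
    exact nd_nA.2 hM1
  have hnB : ND A' B' (0 : F) 1 := by
    rw [hA', hB']
    exact nd_nB.2 hM2
  have hsm' : Sm (AlgebraicClosure F) A' B' := sm_closure A' B' hs'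
  have hh' : ∀ j, ∃ d, (Pl A' B' j).IsHomogeneous d := fun j => ⟨2, Pl_hom A' B' j⟩
  have hsep : (Dq.chp A' B').Separable := (Dq.sep_of_sm hsm' hnB).2
  obtain ⟨w, hw⟩ := exists_w hsm' hnB
  obtain ⟨S, hS⟩ := Dq.exists_S5 F hsm' hnB
  have key : ∀ a : FA (Pl A B), Orth (Pl A B) a → ∃ c : Z1 F (Pl A B), clA (dgA hh c) = a := by
    intro a ha
    obtain ⟨z₀, rfl⟩ := clA_surj a
    refine surj_tr h0 h hh hh' ?_
    obtain ⟨c, hc⟩ := Dq.dl_orth5 hs' hnA hnB hh' w hw (clA (trZ h z₀))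
      fun g g' s c' d hg1 hg2 hd hgg hs1 _ _ =>
        orth_conv hM hA' hB' hw hsep h (S₀ := S) (fun v hv => (hS v hv).2) ha hg1 hg2 hd
          (by rw [hgg]; exact (dvd_mul_right _ _).mul_left _) hs1
    obtain ⟨c, rfl⟩ := G1.cls_surj c
    exact ⟨c, by rw [← dl_cls]; exact hc⟩
  refine ⟨⟨S, fun v hv => (h (FK F v)).subs (hS v hv).2⟩, key, fun z hz => ?_⟩
  obtain ⟨e, he, hexp⟩ := Dq.exp_FA hs' hnB hh'
  refine imD_of_exp hh (N := 2 * ⟨e, he⟩) (fun a => ?_) fun a ha => key a (hz a ?_)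
  · rw [PNat.mul_coe, mul_smul]
    change (2 : ℕ) • e • a = 0
    rw [exp_tr h hexp, smul_zero]
  · exact ha.of_dvd (by rw [PNat.mul_coe]; exact Dvd.intro _ rfl)

end five

end Ob
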