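import Pool.Agent.Lib.MP_f80667_ag.Ob.Tr
import Pool.Agent.Lib.MP_f80667_ag.Dp.Sing
import Pool.Agent.Lib.MP_f80667_ag.Dp.Top

/-! A change of the basis of the pencil. -/

open IsDedekindDomain NumberField
open scoped LinearAlgebra.Projectivization

namespace Ob

open ZC Tq Dp

section mat

variable {F : Type} [Field F] {n : ℕ} (A B : Matrix (Fin n) (Fin n) F)
  (M : Matrix (Fin 2) (Fin 2) F)

/-- The two new forms. -/
def nA : Matrix (Fin n) (Fin n) F := M 0 0 • A + M 0 1 • B

def nB : Matrix (Fin n) (Fin n) F := M 1 0 • A + M 1 1 • B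

variable {A B M}

theorem qv_nA {R : Type*} [CommRing R] [Algebra F R] (x : Fin n → R) :
    qv (nA A B M) x = algebraMap F R (M 0 0) * qv A x + algebraMap F R (M 0 1) * qv B x := by
  simp only [qv, nA, Matrix.add_apply, Matrix.smul_apply, smul_eq_mul, map_add, map_mul,
    Finset.mul_sum, ← Finset.sum_add_distrib]
  refine Finset.sum_congr rfl fun i _ => Finset.sum_congr rfl fun j _ => ?_
  ring

theorem qv_nB {R : Type*} [CommRing R] [Algebra F R] (x : Fin n → R) :
    qv (nB A B M) x = algebraMap F R (M 1 0) * qv A x + algebraMap F R (M 1 1) * qv B x := by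
  simp only [qv, nB, Matrix.add_apply, Matrix.smul_apply, smul_eq_mul, map_add, map_mul,
    Finset.mul_sum, ← Finset.sum_add_distrib]
  refine Finset.sum_congr rfl fun i _ => Finset.sum_congr rfl fun j _ => ?_
  ring

theorem bv_nA {R : Type*} [CommRing R] [Algebra F R] (x y : Fin n → R) :
    bv (nA A B M) x y = algebraMap F R (M 0 0) * bv A x y + algebraMap F R (M 0 1) * bv B x y := by
  simp only [bv, nA, Matrix.add_apply, Matrix.smul_apply, smul_eq_mul, map_add, map_mul,
    Finset.mul_sum, ← Finset.sum_add_distrib]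
  refine Finset.sum_congr rfl fun i _ => Finset.sum_congr rfl fun j _ => ?_
  ring

theorem bv_nB {R : Type*} [CommRing R] [Algebra F R] (x y : Fin n → R) :
    bv (nB A B M) x y = algebraMap F R (M 1 0) * bv A x y + algebraMap F R (M 1 1) * bv B x y := by
  simp only [bv, nB, Matrix.add_apply, Matrix.smul_apply, smul_eq_mul, map_add, map_mul,
    Finset.mul_sum, ← Finset.sum_add_distrib]
  refine Finset.sum_congr rfl fun i _ => Finset.sum_congr rfl fun j _ => ?_
  ring

theorem nA_map {K : Type} [Field K] [Algebra F K] :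
    (nA A B M).map (algebraMap F K) =
      nA (A.map (algebraMap F K)) (B.map (algebraMap F K)) (M.map (algebraMap F K)) := by
  ext i j
  simp only [nA, Matrix.map_apply, Matrix.add_apply, Matrix.smul_apply, smul_eq_mul, map_add,
    map_mul]

theorem nB_map {K : Type} [Field K] [Algebra F K] :
    (nB A B M).map (algebraMap F K) =
      nB (A.map (algebraMap F K)) (B.map (algebraMap F K)) (M.map (algebraMap F K)) := by
  ext i j
  simp only [nB, Matrix.map_apply, Matrix.add_apply, Matrix.smul_apply, smul_eq_mul, map_add,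
    map_mul]

/-- The same zeros. -/
theorem same_n (hM : M.det ≠ 0) : Same (Pl A B) (Pl (nA A B M) (nB A B M)) := by
  intro E _ _ x
  rw [zer_iff, zer_iff, qv_nA, qv_nB]
  constructor
  · rintro ⟨h1, h2⟩
    rw [h1, h2]
    constructor <;> ring
  · rintro ⟨h1, h2⟩
    have hd : algebraMap F E M.det ≠ 0 := (map_ne_zero _).2 hM
    rw [Matrix.det_fin_two, map_sub, map_mul, map_mul] at hd
    constructor
    · have h3 : (algebraMap F E (M 0 0) * algebraMap F E (M 1 1) -
          algebraMap F E (M 0 1) * algebraMap F E (M 1 0)) * qv A x = 0 := by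
        linear_combination algebraMap F E (M 1 1) * h1 - algebraMap F E (M 0 1) * h2
      exact (mul_eq_zero.1 h3).resolve_left hd
    · have h3 : (algebraMap F E (M 0 0) * algebraMap F E (M 1 1) -
          algebraMap F E (M 0 1) * algebraMap F E (M 1 0)) * qv B x = 0 := by
        linear_combination algebraMap F E (M 0 0) * h2 - algebraMap F E (M 1 0) * h1
      exact (mul_eq_zero.1 h3).resolve_left hd

theorem same_nE (hM : M.det ≠ 0) (K : Type) [Field K] [Algebra F K] :
    Same (hE K (Pl A B)) (hE K (Pl (nA A B M) (nB A B M))) := by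
  rw [Ts.hE_Pl, Ts.hE_Pl, nA_map, nB_map]
  apply same_n
  have h1 : (M.map (algebraMap F K)).det = algebraMap F K M.det := (RingHom.map_det _ _).symm
  rw [h1]
  exact (map_ne_zero _).2 hM

theorem nd_nA : ND (nA A B M) (nB A B M) (1 : F) 0 ↔ ND A B (M 0 0) (M 0 1) := by
  refine forall_congr' fun x => imp_congr_right fun _ => exists_congr fun y => not_congr ?_
  rw [mB, bv_nA, mB, Algebra.algebraMap_self_apply, Algebra.algebraMap_self_apply, one_mul, zero_mul,
    add_zero]

theorem nd_nB : ND (nA A B M) (nB A B M) (0 : F) 1 ↔ ND A B (M 1 0) (M 1 1) := by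
  refine forall_congr' fun x => imp_congr_right fun _ => exists_congr fun y => not_congr ?_
  rw [mB, bv_nB, mB, Algebra.algebraMap_self_apply, Algebra.algebraMap_self_apply, one_mul, zero_mul,
    zero_add]

theorem ml_n (a b : F) : ml (a • A + b • B) = MvPolynomial.C a * ml A + MvPolynomial.C b * ml B := by
  simp only [ml, Matrix.add_apply, Matrix.smul_apply, smul_eq_mul, map_add, map_mul,
    Finset.mul_sum, ← Finset.sum_add_distrib]
  refine Finset.sum_congr rfl fun i _ => Finset.sum_congr rfl fun j _ => ?_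
  ring

/-- Smoothness of the new equations. -/
theorem sm_n {Ω : Type} [Field Ω] [Algebra F Ω] (hM : M.det ≠ 0) (hs : ∀ x : Fin n → Ω, x ≠ 0 →
      Zer (Pl A B) Ω x → LinearIndependent Ω fun (i : Fin 2) (j : Fin n) =>
        MvPolynomial.aeval x (MvPolynomial.pderiv j (Pl A B i))) :
    ∀ x : Fin n → Ω, x ≠ 0 → Zer (Pl (nA A B M) (nB A B M)) Ω x →
      LinearIndependent Ω fun (i : Fin 2) (j : Fin n) =>
        MvPolynomial.aeval x (MvPolynomial.pderiv j (Pl (nA A B M) (nB A B M) i)) := by
  intro x hx hz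
  have h1 := hs x hx ((same_n hM Ω x).2 hz)
  have hd : algebraMap F Ω M.det ≠ 0 := (map_ne_zero _).2 hM
  rw [Matrix.det_fin_two, map_sub, map_mul, map_mul] at hd
  have e : ∀ (g : Fin 2 → Fin n → Ω), g = ![g 0, g 1] := fun g => by
    funext i
    fin_cases i <;> rfl
  rw [e (fun (i : Fin 2) (j : Fin n) => MvPolynomial.aeval x (MvPolynomial.pderiv j (Pl A B i))),
    LinearIndependent.pair_iff] at h1
  rw [e (fun (i : Fin 2) (j : Fin n) => MvPolynomial.aeval x (MvPolynomial.pderiv j
    (Pl (nA A B M) (nB A B M) i))), LinearIndependent.pair_iff]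
  intro s t hst
  have h2 := h1 (s * algebraMap F Ω (M 0 0) + t * algebraMap F Ω (M 1 0))
    (s * algebraMap F Ω (M 0 1) + t * algebraMap F Ω (M 1 1)) (by
      rw [← hst]
      funext j
      have e0 : Pl (nA A B M) (nB A B M) 0 = MvPolynomial.C (M 0 0) * ml A +
        MvPolynomial.C (M 0 1) * ml B := ml_n _ _
      have e1 : Pl (nA A B M) (nB A B M) 1 = MvPolynomial.C (M 1 0) * ml A +
        MvPolynomial.C (M 1 1) * ml B := ml_n _ _
      have e2 : Pl A B 0 = ml A := rfl
      have e3 : Pl A B 1 = ml B := rfl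
      simp only [Pi.add_apply, Pi.smul_apply, smul_eq_mul, e0, e1, e2, e3, map_add, map_mul,
        MvPolynomial.pderiv_C_mul, MvPolynomial.aeval_C]
      ring)
  obtain ⟨h3, h4⟩ := h2
  constructor
  · have h5 : (algebraMap F Ω (M 0 0) * algebraMap F Ω (M 1 1) -
        algebraMap F Ω (M 0 1) * algebraMap F Ω (M 1 0)) * s = 0 := by
      linear_combination algebraMap F Ω (M 1 1) * h3 - algebraMap F Ω (M 1 0) * h4
    exact (mul_eq_zero.1 h5).resolve_left hd
  · have h5 : (algebraMap F Ω (M 0 0) * algebraMap F Ω (M 1 1) -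
        algebraMap F Ω (M 0 1) * algebraMap F Ω (M 1 0)) * t = 0 := by
      linear_combination algebraMap F Ω (M 0 0) * h4 - algebraMap F Ω (M 0 1) * h3
    exact (mul_eq_zero.1 h5).resolve_left hd

end mat

/-- A basis of the pencil with nondegenerate members. -/
theorem exists_basis {F : Type} [Field F] [NumberField F] {n : ℕ} {A B : Matrix (Fin n) (Fin n) F}
    (hs : Sm (AlgebraicClosure F) A B) (hn : 1 ≤ n) : ∃ M : Matrix (Fin 2) (Fin 2) F, M.det ≠ 0 ∧
      ND A B (M 0 0) (M 0 1) ∧ ND A B (M 1 0) (M 1 1) := by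
  classical
  obtain ⟨s, hs1, hs2⟩ := fin_sing hs hn
  have key : ∀ T : Finset F, ∃ t ∉ T, ND A B (1 : F) t := by
    intro T
    obtain ⟨t, ht⟩ := Infinite.exists_notMem_finset
      (T ∪ s.preimage (fun t : F => ((1 : AlgebraicClosure F), algebraMap F _ t)) (by
        intro a _ b _ hab
        exact (algebraMap F (AlgebraicClosure F)).injective (congrArg Prod.snd hab)) ∪
        (s.image fun c => c.2 / c.1).preimage (algebraMap F _)
          (algebraMap F (AlgebraicClosure F)).injective.injOn)
    refine ⟨t, fun h => ht (by simp [h]), ?_⟩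
    have h1 : ND A B (1 : AlgebraicClosure F) (algebraMap F _ t) := by
      refine hs2 _ _ fun c hc h0 => ht ?_
      rw [one_mul] at h0
      have hc1 : c.1 ≠ 0 := by
        intro h1
        rw [h1, mul_zero, sub_zero] at h0
        rcases hs1 c hc with h | h
        · exact h h1
        · exact h h0
      apply Finset.mem_union_right
      rw [Finset.mem_preimage, Finset.mem_image]
      exact ⟨c, hc, by rw [sub_eq_zero.1 h0, mul_div_cancel_right₀ _ hc1]⟩
    have h2 := (ND.hom (A := A) (B := B) (Algebra.ofId F (AlgebraicClosure F)) (a := 1) (b := t)).1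
    apply h2
    rw [map_one]
    exact h1
  obtain ⟨t₁, -, h1⟩ := key ∅
  obtain ⟨t₂, ht, h2⟩ := key {t₁}
  refine ⟨!![1, t₁; 1, t₂], ?_, h1, h2⟩
  rw [Matrix.det_fin_two_of, one_mul, mul_one]
  intro h0
  exact ht (Finset.mem_singleton.2 (sub_eq_zero.1 h0))

end Ob
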