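import Pool.Agent.Lib.MP_f80667_ag.Ob.Ch
import Pool.Agent.Lib.MP_f80667_ag.Dr.BrO
import Pool.Agent.Lib.MP_f80667_ag.Dq.Pen

/-! The member of the pencil which belongs to a factor of the characteristic polynomial. -/

open Polynomial Matrix IsDedekindDomain NumberField
open scoped LinearAlgebra.Projectivization

namespace Ob

open ZC Tq Dp

section alg

variable {k : Type} [Field k] {n : ℕ}

theorem Hs_ml (A : Matrix (Fin n) (Fin n) k) : Hs (ml A) = A + A.transpose := by
  ext i j
  have h1 : ∀ a b : Fin n, MvPolynomial.constantCoeff (MvPolynomial.pderiv i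
      (MvPolynomial.pderiv j (MvPolynomial.C (A a b) * (MvPolynomial.X a * MvPolynomial.X b)))) =
      (if a = i then if b = j then A a b else 0 else 0) +
        (if a = j then if b = i then A a b else 0 else 0) := by
    intro a b
    rw [MvPolynomial.pderiv_C_mul, MvPolynomial.pderiv_C_mul, Derivation.leibniz, map_add,
      smul_eq_mul, smul_eq_mul, Derivation.leibniz, Derivation.leibniz, MvPolynomial.pderiv_X,
      MvPolynomial.pderiv_X, MvPolynomial.pderiv_X, MvPolynomial.pderiv_X]
    simp only [Pi.single_apply, smul_eq_mul, map_mul, map_add, MvPolynomial.constantCoeff_C,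
      MvPolynomial.constantCoeff_X]
    split_ifs <;> simp_all
    ring
  rw [Hs, ml]
  simp only [map_sum, h1, Finset.sum_add_distrib, Matrix.add_apply, Matrix.transpose_apply]
  simp

/-- The symmetric matrix of the member `(1, -T)` over `k[T] / g`. -/
noncomputable def Hm (A B : Matrix (Fin n) (Fin n) k) (g : k[X]) :
    Matrix (Fin n) (Fin n) (AdjoinRoot g) :=
  (A + A.transpose).map (AdjoinRoot.of g) -
    AdjoinRoot.root g • (B + B.transpose).map (AdjoinRoot.of g)

/-- The polar form as a matrix product. -/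
theorem mB_dot (A B : Matrix (Fin n) (Fin n) k) {R : Type*} [CommRing R] [Algebra k R] (a b : R)
    (x y : Fin n → R) : mB A B a b x y = x ⬝ᵥ (a • (A + A.transpose).map (algebraMap k R) +
      b • (B + B.transpose).map (algebraMap k R)) *ᵥ y := by
  rw [mB, bv_comm A x y, bv_comm B x y, Ts.nd_bv_dot, Ts.nd_bv_dot, add_mulVec, smul_mulVec,
    smul_mulVec, dotProduct_add, dotProduct_smul, dotProduct_smul, smul_eq_mul, smul_eq_mul,
    dotProduct_comm x, dotProduct_comm x]

theorem Hm_dot (A B : Matrix (Fin n) (Fin n) k) (g : k[X]) (x y : Fin n → AdjoinRoot g) :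
    x ⬝ᵥ Hm A B g *ᵥ y = mB A B 1 (-(AdjoinRoot.root g)) x y := by
  rw [mB_dot, one_smul, neg_smul, ← sub_eq_add_neg]
  rfl

theorem Hm_iso (A B : Matrix (Fin n) (Fin n) k) (g : k[X]) (x : Fin n → AdjoinRoot g) :
    x ⬝ᵥ Hm A B g *ᵥ x = 2 * mQ A B 1 (-(AdjoinRoot.root g)) x := by
  rw [Hm_dot, mB_self]

theorem up_of (g : k[X]) (L : Type) [Field L] [Algebra k L] (x : k) :
    Dr.up g L (AdjoinRoot.of g x) = AdjoinRoot.of (g.map (algebraMap k L)) (algebraMap k L x) :=
  Dr.up_of x

theorem up_Hm (A B : Matrix (Fin n) (Fin n) k) (g : k[X]) (L : Type) [Field L] [Algebra k L] :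
    (Hm A B g).map (Dr.up g L) =
      Hm (A.map (algebraMap k L)) (B.map (algebraMap k L)) (g.map (algebraMap k L)) := by
  ext i j
  simp only [Hm, Matrix.map_apply, Matrix.sub_apply, Matrix.smul_apply, smul_eq_mul, map_sub,
    map_mul, up_of, Dr.up_root, Matrix.add_apply, Matrix.transpose_apply, map_add]

end alg

section five

variable {k : Type} [Field k] {A B : Matrix (Fin 5) (Fin 5) k} {g : k[X]}

theorem nh_eq (R : Fin 5 → AdjoinRoot g) {L : Type} [Field L] [Algebra k L] (y : Fin 5 → L) :
    Dr.nh A B g R y = Algebra.norm L (∑ i, Dr.up g L ((R ᵥ* Hm A B g) i) *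
      AdjoinRoot.of (g.map (algebraMap k L)) (y i)) := by
  rw [Dr.nh, Dr.Lf, mB_dot, one_smul, neg_smul, ← sub_eq_add_neg]
  congr 1
  have h1 : ∀ i, Dr.up g L ((R ᵥ* Hm A B g) i) =
      ((fun i => Dr.up g L (R i)) ᵥ* (Hm A B g).map (Dr.up g L)) i := fun i =>
    RingHom.map_vecMul (Dr.up g L) _ _ i
  simp only [h1]
  have h2 : (A + A.transpose).map (algebraMap k (AdjoinRoot (g.map (algebraMap k L)))) -
      AdjoinRoot.root (g.map (algebraMap k L)) •
        (B + B.transpose).map (algebraMap k (AdjoinRoot (g.map (algebraMap k L)))) =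
      (Hm A B g).map (Dr.up g L) := by
    rw [up_Hm]
    ext i j
    simp only [Hm, Matrix.map_apply, Matrix.sub_apply, Matrix.smul_apply, smul_eq_mul,
      Matrix.add_apply, Matrix.transpose_apply, map_add]
    rfl
  rw [h2, dotProduct_mulVec]
  rfl

end five

end Ob
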