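import Pool.Agent.Lib.MP_f80667_ag.Ob.Qa

/-! The discriminant and the local invariants. -/

open Polynomial Matrix IsDedekindDomain NumberField
open scoped LinearAlgebra.Projectivization

namespace Ob

open ZC Tq Dp

section alg

variable {F : Type} [Field F] {A B : Matrix (Fin 5) (Fin 5) F} {g : F[X]}

theorem aeval_root (p : F[X]) : aeval (AdjoinRoot.root g) p = AdjoinRoot.mk g p :=
  AdjoinRoot.aeval_eq p

theorem Hm_det (hg : g ∣ Dq.chp A B) : (Hm A B g).det = 0 := by
  have h1 := Dq.chp_aeval (S := AdjoinRoot g) A B (AdjoinRoot.root g)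
  rw [aeval_root, AdjoinRoot.mk_eq_zero.2 hg] at h1
  exact h1.symm

theorem Hm_adj (w : Fin 5 → F) : (fun i => AdjoinRoot.of g (w i)) ⬝ᵥ (Hm A B g).adjugate *ᵥ
    (fun i => AdjoinRoot.of g (w i)) = AdjoinRoot.mk g (Dq.dlp A B w) := by
  have h1 := Dq.dlp_aeval (S := AdjoinRoot g) A B w (AdjoinRoot.root g)
  rw [aeval_root] at h1
  exact h1.symm

/-- The data of a factor. -/
theorem unit_s {w : Fin 5 → F} (hw : IsCoprime (Dq.chp A B) (Dq.dlp A B w))
    (hg : g ∣ Dq.chp A B) {s : F[X]} {d : F} (hs : g ∣ Dq.dlp A B w - C d * s ^ 2) :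
    AdjoinRoot.mk g (Dq.dlp A B w) = AdjoinRoot.of g d * AdjoinRoot.mk g s ^ 2 ∧
      IsUnit (AdjoinRoot.mk g s) := by
  have h1 : AdjoinRoot.mk g (Dq.dlp A B w) = AdjoinRoot.of g d * AdjoinRoot.mk g s ^ 2 := by
    have h2 := AdjoinRoot.mk_eq_zero.2 hs
    rw [map_sub, map_mul, map_pow, sub_eq_zero] at h2
    exact h2
  refine ⟨h1, ?_⟩
  obtain ⟨u, v, huv⟩ := hw
  have h3 := congrArg (AdjoinRoot.mk g) huv
  rw [map_add, map_mul, map_mul, AdjoinRoot.mk_eq_zero.2 hg, mul_zero, zero_add, map_one, h1] at h3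
  refine IsUnit.of_mul_eq_one (AdjoinRoot.mk g v * AdjoinRoot.of g d * AdjoinRoot.mk g s) ?_
  rw [← h3]
  ring

/-- The activity condition. -/
theorem act_iff {w : Fin 5 → F} (hw : IsCoprime (Dq.chp A B) (Dq.dlp A B w))
    (hg : g ∣ Dq.chp A B) {s : F[X]} {d : F} (hs : g ∣ Dq.dlp A B w - C d * s ^ 2) (K : Type)
    [Field K] [Algebra F K] : Dr.Act A B w g K ↔
      ¬ IsSquare (AdjoinRoot.of (g.map (algebraMap F K)) (algebraMap F K d)) := by
  obtain ⟨h1, h2⟩ := unit_s hw hg hs
  rw [Dr.Act, not_iff_not]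
  have hup : ∀ p : F[X], Dr.up g K (AdjoinRoot.mk g p) =
      AdjoinRoot.mk (g.map (algebraMap F K)) (p.map (algebraMap F K)) := by
    intro p
    induction p using Polynomial.induction_on' with
    | add p q hp hq => rw [map_add, map_add, hp, hq, Polynomial.map_add, map_add]
    | monomial n a =>
      rw [← C_mul_X_pow_eq_monomial, map_mul, map_pow, AdjoinRoot.mk_C, AdjoinRoot.mk_X, map_mul,
        map_pow, up_of, Dr.up_root, Polynomial.map_mul, Polynomial.map_pow, Polynomial.map_C,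
        Polynomial.map_X, map_mul, map_pow, AdjoinRoot.mk_C, AdjoinRoot.mk_X]
  have h3 : AdjoinRoot.mk (g.map (algebraMap F K)) ((Dr.dl A B w).map (algebraMap F K)) =
      AdjoinRoot.of (g.map (algebraMap F K)) (algebraMap F K d) *
        (Dr.up g K (AdjoinRoot.mk g s)) ^ 2 := by
    rw [← hup]
    change Dr.up g K (AdjoinRoot.mk g (Dq.dlp A B w)) = _
    rw [h1, map_mul, map_pow, up_of]
  have h4 : IsUnit (Dr.up g K (AdjoinRoot.mk g s)) := h2.map (Dr.up g K)
  constructor
  · rintro ⟨t, ht⟩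
    have h5 := AdjoinRoot.mk_eq_zero.2 ht
    rw [map_sub, map_pow, sub_eq_zero, h3] at h5
    obtain ⟨u, hu⟩ := h4
    refine ⟨AdjoinRoot.mk (g.map (algebraMap F K)) t *
      ((u⁻¹ : (AdjoinRoot (g.map (algebraMap F K)))ˣ) : AdjoinRoot (g.map (algebraMap F K))), ?_⟩
    rw [← hu] at h5
    have h6 : (u : AdjoinRoot (g.map (algebraMap F K))) *
        (u⁻¹ : (AdjoinRoot (g.map (algebraMap F K)))ˣ) = 1 := u.mul_inv
    calc AdjoinRoot.of (g.map (algebraMap F K)) (algebraMap F K d)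
        = AdjoinRoot.of (g.map (algebraMap F K)) (algebraMap F K d) *
          ((u : AdjoinRoot (g.map (algebraMap F K))) *
            (u⁻¹ : (AdjoinRoot (g.map (algebraMap F K)))ˣ)) ^ 2 := by rw [h6, one_pow, mul_one]
      _ = (AdjoinRoot.of (g.map (algebraMap F K)) (algebraMap F K d) *
          (u : AdjoinRoot (g.map (algebraMap F K))) ^ 2) *
            (u⁻¹ : (AdjoinRoot (g.map (algebraMap F K)))ˣ) ^ 2 := by ring
      _ = _ := by rw [h5]; ring
  · rintro ⟨t, ht⟩
    obtain ⟨p, hp⟩ := AdjoinRoot.mk_surjective (t * Dr.up g K (AdjoinRoot.mk g s))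
    refine ⟨p, ?_⟩
    apply AdjoinRoot.mk_eq_zero.1
    rw [map_sub, map_pow, hp, h3, ht]
    ring

end alg

section psi

variable {k : Type} [Field k] {A B : Matrix (Fin 5) (Fin 5) k} {g : k[X]} {b e : k}

/-- The first matrix of the new basis. -/
def pP (A B : Matrix (Fin 5) (Fin 5) k) (b : k) : Matrix (Fin 5) (Fin 5) k :=
  (A + A.transpose) + b • (B + B.transpose)

/-- The second matrix of the new basis. -/
def pQ (B : Matrix (Fin 5) (Fin 5) k) : Matrix (Fin 5) (Fin 5) k := -(B + B.transpose)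

theorem mt_psi (hg : g = gf b e) : (Hm A B g).map (psi hg) = mt (pP A B b) (pQ B) e := by
  ext i j
  · simp only [Hm, mt, pP, pQ, Matrix.map_apply, Matrix.sub_apply, Matrix.smul_apply, smul_eq_mul,
      map_sub, map_mul, psi_of, psi_root, Matrix.add_apply, QuadraticAlgebra.re_sub,
      QuadraticAlgebra.re_mul, QuadraticAlgebra.algebraMap_re, QuadraticAlgebra.algebraMap_im]
    ring
  · simp only [Hm, mt, pP, pQ, Matrix.map_apply, Matrix.sub_apply, Matrix.smul_apply, smul_eq_mul,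
      map_sub, map_mul, psi_of, psi_root, Matrix.add_apply, QuadraticAlgebra.im_sub,
      QuadraticAlgebra.im_mul, QuadraticAlgebra.algebraMap_re, QuadraticAlgebra.algebraMap_im,
      Matrix.neg_apply]
    ring

theorem re_sum {α : Type} (s : Finset α) (f : α → QuadraticAlgebra k e 0) :
    (∑ i ∈ s, f i).re = ∑ i ∈ s, (f i).re := map_sum (QuadraticAlgebra.reₗ (R := k) e 0) _ _

theorem im_sum {α : Type} (s : Finset α) (f : α → QuadraticAlgebra k e 0) :
    (∑ i ∈ s, f i).im = ∑ i ∈ s, (f i).im := map_sum (QuadraticAlgebra.imₗ (R := k) e 0) _ _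

theorem Nf_nh (hg : g = gf b e) (R : Fin 5 → AdjoinRoot g) {L : Type} [Field L] [Algebra k L]
    (y : Fin 5 → L) : Nf ((fun i => psi hg (R i)) ᵥ* mt (pP A B b) (pQ B) e) y =
      Dr.nh A B g R y := by
  have hL : g.map (algebraMap k L) = gf (algebraMap k L b) (algebraMap k L e) := by
    rw [hg, gf_map]
  have h1 : ∀ i, ((fun i => psi hg (R i)) ᵥ* mt (pP A B b) (pQ B) e) i =
      psi hg ((R ᵥ* Hm A B g) i) := fun i => by
    rw [← mt_psi hg]
    exact (RingHom.map_vecMul (psi hg) _ _ i).symm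
  rw [nh_eq, norm_psi hL, map_sum]
  have h2 : ∀ i, psi hL (Dr.up g L ((R ᵥ* Hm A B g) i) *
      AdjoinRoot.of (g.map (algebraMap k L)) (y i)) =
      mq e L (psi hg ((R ᵥ* Hm A B g) i)) * algebraMap L _ (y i) := fun i => by
    rw [map_mul, psi_up hg hL, psi_of]
  simp only [h2, re_sum, im_sum, Nf, Lf, h1, QuadraticAlgebra.re_mul, QuadraticAlgebra.im_mul,
    mq_re, mq_im, QuadraticAlgebra.algebraMap_re, QuadraticAlgebra.algebraMap_im]
  simp only [mul_zero, zero_mul, add_zero, zero_add]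

end psi

section inv

variable {F : Type} [Field F] {A B : Matrix (Fin 5) (Fin 5) F} {g : F[X]} {b e : F}

theorem pP_map (K : Type) [Field K] [Algebra F K] : (pP A B b).map (algebraMap F K) =
    pP (A.map (algebraMap F K)) (B.map (algebraMap F K)) (algebraMap F K b) := by
  ext i j
  simp only [pP, Matrix.map_apply, Matrix.add_apply, Matrix.smul_apply, smul_eq_mul,
    Matrix.transpose_apply, map_add, map_mul]

theorem pQ_map (K : Type) [Field K] [Algebra F K] : (pQ B).map (algebraMap F K) =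
    pQ (B.map (algebraMap F K)) := by
  ext i j
  simp only [pQ, Matrix.map_apply, Matrix.add_apply, Matrix.neg_apply,
    Matrix.transpose_apply, map_add, map_neg]

/-- A value of the local invariant. -/
theorem inv_of_pr {K : Type} [Field K] [Algebra F K] (hg : g = gf b e)
    {z : Z1 K (hE K (Pl A B))} {c : K} {d : F} {ε : ZMod 2}
    (h : ¬ (IsSquare (algebraMap F K d) ∨ IsSquare (algebraMap F K d * algebraMap F K e)) →
      Dr.Pr A B g K z c)
    (h0 : IsSquare (algebraMap F K d) ∨ IsSquare (algebraMap F K d * algebraMap F K e) → ε = 0)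
    (h1 : ¬ (IsSquare (algebraMap F K d) ∨ IsSquare (algebraMap F K d * algebraMap F K e)) →
      (ε = 0 ↔ Dr.Nd (algebraMap F K d) c)) :
    InvK K (pP A B b) (pQ B) e d z.1 ε := by
  have hK : g.map (algebraMap F K) = gf (algebraMap F K b) (algebraMap F K e) := by
    rw [hg, gf_map]
  refine ⟨h0, fun ha => ?_⟩
  obtain ⟨R, l, hR, hoff, hc⟩ := h ha
  have hN : ∀ y : Fin 5 → AlgebraicClosure K,
      Nf ((fun i => psi hK (R i)) ᵥ* mt ((pP A B b).map (algebraMap F K))
        ((pQ B).map (algebraMap F K)) (algebraMap F K e)) y =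
      Dr.nh (A.map (algebraMap F K)) (B.map (algebraMap F K)) (g.map (algebraMap F K)) R y := by
    intro y
    rw [pP_map, pQ_map]
    exact Nf_nh hK R y
  refine ⟨fun i => psi hK (R i), l, c, ?_, ⟨fun y hy => ?_, ?_⟩, h1 ha⟩
  · rw [pP_map, pQ_map, ← mt_psi hK]
    have h2 : (fun i => psi hK (R i)) ⬝ᵥ (Hm (A.map (algebraMap F K)) (B.map (algebraMap F K))
        (g.map (algebraMap F K))).map (psi hK) *ᵥ (fun i => psi hK (R i)) =
        psi hK (R ⬝ᵥ Hm (A.map (algebraMap F K)) (B.map (algebraMap F K))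
          (g.map (algebraMap F K)) *ᵥ R) := by
      rw [RingHom.map_dotProduct]
      congr 1
      funext i
      exact (RingHom.map_mulVec (psi hK) _ _ i).symm
    rw [h2, Hm_iso, hR, mul_zero, map_zero]
  · obtain ⟨h2, h3⟩ := hoff y hy
    rw [fn, hN]
    exact div_ne_zero h2 (pow_ne_zero 2 h3)
  · rw [hc]
    simp only [fn, hN]
    rfl

end inv

end Ob
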