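import Pool.Agent.Lib.MP_f80667_ag.Ob.CvB

/-! Orthogonality in terms of a basis of the pencil. -/

open Polynomial Matrix IsDedekindDomain NumberField
open scoped LinearAlgebra.Projectivization

namespace Ob

open ZC Tq Dp

section sums

theorem finsum_card {α : Type} (S : Finset α) (p : α → Prop) (hp : ∀ v, p v → v ∈ S)
    (e : α → ZMod 2) (h1 : ∀ v, p v → e v = 1) (h0 : ∀ v, ¬ p v → e v = 0) :
    ∑ᶠ v, e v = ((Nat.card {v // p v} : ℕ) : ZMod 2) := by
  classical
  have he : e = fun v => if p v then 1 else 0 := by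
    funext v
    split_ifs with h
    · exact h1 v h
    · exact h0 v h
  rw [finsum_eq_sum_of_support_subset (s := S) e (by
    intro v hv
    by_contra hcon
    exact hv (h0 v fun h => hcon (hp v h))), he, Finset.sum_boole]
  congr 1
  rw [← Nat.card_eq_finsetCard]
  refine Nat.card_congr (Equiv.subtypeEquivRight fun v => ?_)
  rw [Finset.mem_filter]
  exact ⟨fun h => h.2, fun h => ⟨hp v h, h⟩⟩

theorem sum_card {α : Type} [Fintype α] (p : α → Prop) (e : α → ZMod 2)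
    (h1 : ∀ v, p v → e v = 1) (h0 : ∀ v, ¬ p v → e v = 0) :
    ∑ v, e v = ((Nat.card {v // p v} : ℕ) : ZMod 2) := by
  rw [← finsum_card Finset.univ p (fun v _ => Finset.mem_univ v) e h1 h0,
    finsum_eq_sum_of_fintype]

end sums

section zero

variable {F : Type} [Field F] {A B : Matrix (Fin 5) (Fin 5) F} {g : F[X]}

/-- The zero-cycle `0`. -/
noncomputable def z00 (K : Type) [Field K] {n : ℕ} {κ : Type} (h : κ → MvPolynomial (Fin n) K) :
    Z1 K h := ⟨0, zero_mem _⟩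

theorem pr_zero (K : Type) [Field K] [Algebra F K] :
    Dr.Pr A B g K (z00 K (hE K (Pl A B))) 1 := by
  refine ⟨0, 0, ?_, fun y hy => ?_, ?_⟩
  · have h1 := mQ_smul (A := A.map (algebraMap F K)) (B := B.map (algebraMap F K))
      (R := AdjoinRoot (g.map (algebraMap F K))) 1 (-(AdjoinRoot.root (g.map (algebraMap F K)))) 0 0
    rw [zero_smul, zero_pow two_ne_zero, zero_mul] at h1
    exact h1
  · have h2 : y ∈ (0 : ℙ (AlgebraicClosure K) (Fin 5 → AlgebraicClosure K) →₀ ℤ).support := hy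
    rw [Finsupp.support_zero] at h2
    exact absurd h2 (Finset.notMem_empty y)
  · rw [map_one]
    exact (Finsupp.prod_zero_index).symm

theorem nd_one (K : Type) [Field K] (d : K) : Dr.Nd d 1 := ⟨1, 0, by ring⟩

end zero

section main

variable {F : Type} [Field F] [NumberField F] {A B : Matrix (Fin 5) (Fin 5) F}

theorem sq_complex (v : InfinitePlace F) (hv : ¬ v.IsReal) (d : IK F v) : IsSquare d := by
  have hc : v.IsComplex := InfinitePlace.not_isReal_iff_isComplex.1 hv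
  have e : IK F v ≃+* ℂ := InfinitePlace.Completion.ringEquivComplexOfIsComplex hc
  have : IsAlgClosed (IK F v) := IsAlgClosed.of_ringEquiv _ _ e.symm
  obtain ⟨s, hs⟩ := IsAlgClosed.exists_pow_nat_eq d (n := 2) two_pos
  exact ⟨s, by rw [← pow_two, hs]⟩

omit [NumberField F] in
theorem fam_aux {K : Type} [Field K] {n : ℕ} {κ κ' : Type} {f : κ → MvPolynomial (Fin n) K}
    {q : κ' → MvPolynomial (Fin n) K} (h : Same f q) (z : Z1 K q) : ∃ y : Z1 K f,
      y.1 = z.1 ∧ tr h y = z := ⟨tr h.symm z, rfl, rfl⟩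

/-- A family of cycles which represents a family of classes. -/
theorem exists_fam {n : ℕ} {κ κ' : Type} {f : κ → MvPolynomial (Fin n) F}
    {q : κ' → MvPolynomial (Fin n) F}
    (h : ∀ (K : Type) [Field K] [Algebra F K], Same (hE K f) (hE K q)) (z₀ : ZA f)
    {S : Finset (HeightOneSpectrum (𝓞 F))}
    (hS : ∀ v ∉ S, Subsingleton (G1 (FK F v) (hE (FK F v) q)))
    (z : ∀ v : HeightOneSpectrum (𝓞 F), Z1 (FK F v) (hE (FK F v) q))
    (z' : ∀ v : InfinitePlace F, Z1 (IK F v) (hE (IK F v) q))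
    (h1 : ∀ v ∈ S, G1.cls (z v) = (clA (trZ h z₀)).1 v)
    (h2 : ∀ v : InfinitePlace F, v.IsReal → G1b.cls (z' v) = (clA (trZ h z₀)).2 v) :
    ∃ z₂ : ZA f, clA z₂ = clA z₀ ∧ (∀ v ∈ S, (z₂.1 v).1 = (z v).1) ∧
      (∀ v ∉ S, (z₂.1 v).1 = 0) ∧ ∀ v : InfinitePlace F, v.IsReal → (z₂.2 v).1 = (z' v).1 := by
  classical
  have k1 : ∀ v, ∃ y : Z1 (FK F v) (hE (FK F v) f), (v ∈ S → y.1 = (z v).1) ∧
      (v ∉ S → y.1 = 0) ∧ G1.cls (tr (h _) y) = (clA (trZ h z₀)).1 v := by
    intro v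
    by_cases hv : v ∈ S
    · obtain ⟨y, hy1, hy2⟩ := fam_aux (h (FK F v)) (z v)
      exact ⟨y, fun _ => hy1, fun hn => absurd hv hn, by rw [hy2]; exact h1 v hv⟩
    · have := hS v hv
      exact ⟨z00 _ _, fun hn => absurd hn hv, fun _ => rfl, Subsingleton.elim _ _⟩
  have k2 : ∀ v : InfinitePlace F, ∃ y : Z1 (IK F v) (hE (IK F v) f),
      (v.IsReal → y.1 = (z' v).1) ∧ G1b.cls (tr (h _) y) = (clA (trZ h z₀)).2 v := by
    intro v
    by_cases hv : v.IsReal
    · obtain ⟨y, hy1, hy2⟩ := fam_aux (h (IK F v)) (z' v)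
      exact ⟨y, fun _ => hy1, by rw [hy2]; exact h2 v hv⟩
    · exact ⟨z₀.2 v, fun hn => absurd hn hv, rfl⟩
  choose y1 hy1 hy1' hy1'' using k1
  choose y2 hy2 hy2' using k2
  refine ⟨(y1, y2), (clA_tr h).1 (Prod.ext (funext hy1'') (funext hy2')), hy1, hy1', hy2⟩

omit [NumberField F] in
/-- The invariants. -/
theorem exists_inv {w : Fin 5 → F} (hw : IsCoprime (Dq.chp A B) (Dq.dlp A B w)) {g s : F[X]}
    {d : F} (hg : g ∣ Dq.chp A B) (hs : g ∣ Dq.dlp A B w - C d * s ^ 2) {b e : F}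
    (hb : g = gf b e) (he : e ≠ 0) (K : Type) [Field K] [CharZero K]
    [Algebra F K] (z : Z1 K (hE K (Pl A B))) (c : K) (h : Dr.Act A B w g K → Dr.Pr A B g K z c) :
    ∃ ε : ZMod 2, InvK K (pP A B b) (pQ B) e d z.1 ε ∧
      ((Dr.Act A B w g K ∧ ¬ Dr.Nd (algebraMap F K d) c) → ε = 1) ∧
      (¬ (Dr.Act A B w g K ∧ ¬ Dr.Nd (algebraMap F K d) c) → ε = 0) := by
  classical
  have hK : g.map (algebraMap F K) = gf (algebraMap F K b) (algebraMap F K e) := by
    rw [hb, gf_map]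
  have hact := act_iff hw hg hs K
  rw [sq_iff hK ((_root_.map_ne_zero _).2 he)] at hact
  refine ⟨if Dr.Act A B w g K ∧ ¬ Dr.Nd (algebraMap F K d) c then 1 else 0, ?_,
    fun h => if_pos h, fun h => if_neg h⟩
  refine inv_of_pr hb (c := c) (fun ha => h (hact.2 ha)) (fun ha => ?_) fun ha => ?_
  · exact if_neg fun h => hact.1 h.1 ha
  · by_cases hn : Dr.Nd (algebraMap F K d) c
    · rw [if_neg fun h => h.2 hn]
      exact ⟨fun _ => hn, fun _ => rfl⟩
    · rw [if_pos ⟨hact.2 ha, hn⟩]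
      exact ⟨fun h => absurd h one_ne_zero, fun h => absurd h hn⟩

end main

end Ob
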