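import Pool.Agent.Lib.MP_f80667_ag.Ob.CvC

/-! Orthogonality in terms of a basis of the pencil. -/

open Polynomial Matrix IsDedekindDomain NumberField
open scoped LinearAlgebra.Projectivization

namespace Ob

open ZC Tq Dp

variable {F : Type} [Field F] [NumberField F] {A B : Matrix (Fin 5) (Fin 5) F}

/-- The invariants at the finite places. -/
theorem inv_fin {w : Fin 5 → F}
    (hw : IsCoprime (Dq.chp A B) (Dq.dlp A B w)) {g s : F[X]}
    {d : F} (hg : g ∣ Dq.chp A B) (hs : g ∣ Dq.dlp A B w - C d * s ^ 2) {b e : F}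
    (hb : g = gf b e) (he : e ≠ 0)
    (S : Finset (HeightOneSpectrum (𝓞 F)))
    (z : ∀ v : HeightOneSpectrum (𝓞 F), Z1 (FK F v) (hE (FK F v) (Pl A B)))
    (c : ∀ v : HeightOneSpectrum (𝓞 F), FK F v)
    (h : ∀ v ∈ S, Dr.Act A B w g (FK F v) → Dr.Pr A B g (FK F v) (z v) (c v)) :
    ∃ ε : HeightOneSpectrum (𝓞 F) → ZMod 2,
      (∀ v ∈ S, InvK (FK F v) (pP A B b) (pQ B) e d (z v).1 (ε v)) ∧
      (∀ v ∉ S, InvK (FK F v) (pP A B b) (pQ B) e d 0 (ε v)) ∧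
      (∀ v, (v ∈ S ∧ Dr.Act A B w g (FK F v) ∧ ¬ Dr.Nd (algebraMap F (FK F v) d) (c v)) →
        ε v = 1) ∧
      (∀ v, ¬ (v ∈ S ∧ Dr.Act A B w g (FK F v) ∧ ¬ Dr.Nd (algebraMap F (FK F v) d) (c v)) →
        ε v = 0) := by
  have k : ∀ v, ∃ ε : ZMod 2, (v ∈ S → InvK (FK F v) (pP A B b) (pQ B) e d (z v).1 ε) ∧
      (v ∉ S → InvK (FK F v) (pP A B b) (pQ B) e d 0 ε) ∧
      ((v ∈ S ∧ Dr.Act A B w g (FK F v) ∧ ¬ Dr.Nd (algebraMap F (FK F v) d) (c v)) → ε = 1) ∧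
      (¬ (v ∈ S ∧ Dr.Act A B w g (FK F v) ∧ ¬ Dr.Nd (algebraMap F (FK F v) d) (c v)) →
        ε = 0) := by
    intro v
    have : CharZero (FK F v) := charZero_of_injective_algebraMap (algebraMap F (FK F v)).injective
    by_cases hv : v ∈ S
    · obtain ⟨ε, h1, h2, h3⟩ := exists_inv hw hg hs hb he (FK F v) (z v) (c v) (h v hv)
      exact ⟨ε, fun _ => h1, fun hn => absurd hv hn, fun hx => h2 hx.2, fun hx =>
        h3 fun hy => hx ⟨hv, hy⟩⟩
    · obtain ⟨ε, h1, h2, h3⟩ := exists_inv hw hg hs hb he (FK F v) (z00 _ _) 1 fun _ => pr_zero _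
      refine ⟨ε, fun hn => absurd hn hv, fun _ => h1, fun hx => absurd hx.1 hv, fun _ =>
        h3 fun hy => hy.2 (nd_one _ _)⟩
  choose ε h1 h2 h3 h4 using k
  exact ⟨ε, h1, h2, h3, h4⟩

/-- The invariants at the infinite places. -/
theorem inv_inf {w : Fin 5 → F}
    (hw : IsCoprime (Dq.chp A B) (Dq.dlp A B w)) {g s : F[X]}
    {d : F} (hg : g ∣ Dq.chp A B) (hs : g ∣ Dq.dlp A B w - C d * s ^ 2) {b e : F}
    (hb : g = gf b e) (he : e ≠ 0)
    (z : ∀ v : InfinitePlace F, Z1 (IK F v) (hE (IK F v) (Pl A B)))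
    (c : ∀ v : InfinitePlace F, IK F v)
    (h : ∀ v : InfinitePlace F, v.IsReal → Dr.Act A B w g (IK F v) →
      Dr.Pr A B g (IK F v) (z v) (c v)) :
    ∃ ε : InfinitePlace F → ZMod 2,
      (∀ v : InfinitePlace F, v.IsReal → InvK (IK F v) (pP A B b) (pQ B) e d (z v).1 (ε v)) ∧
      (∀ v : InfinitePlace F, ¬ v.IsReal →
        ∀ y, InvK (IK F v) (pP A B b) (pQ B) e d y (ε v)) ∧
      (∀ v, (v.IsReal ∧ Dr.Act A B w g (IK F v) ∧ ¬ Dr.Nd (algebraMap F (IK F v) d) (c v)) →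
        ε v = 1) ∧
      (∀ v, ¬ (v.IsReal ∧ Dr.Act A B w g (IK F v) ∧ ¬ Dr.Nd (algebraMap F (IK F v) d) (c v)) →
        ε v = 0) := by
  have k : ∀ v : InfinitePlace F, ∃ ε : ZMod 2,
      (v.IsReal → InvK (IK F v) (pP A B b) (pQ B) e d (z v).1 ε) ∧
      (¬ v.IsReal → ∀ y, InvK (IK F v) (pP A B b) (pQ B) e d y ε) ∧
      ((v.IsReal ∧ Dr.Act A B w g (IK F v) ∧ ¬ Dr.Nd (algebraMap F (IK F v) d) (c v)) → ε = 1) ∧
      (¬ (v.IsReal ∧ Dr.Act A B w g (IK F v) ∧ ¬ Dr.Nd (algebraMap F (IK F v) d) (c v)) →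
        ε = 0) := by
    intro v
    have : CharZero (IK F v) := charZero_of_injective_algebraMap (algebraMap F (IK F v)).injective
    by_cases hv : v.IsReal
    · obtain ⟨ε, h1, h2, h3⟩ := exists_inv hw hg hs hb he (IK F v) (z v) (c v) (h v hv)
      exact ⟨ε, fun _ => h1, fun hn => absurd hv hn, fun hx => h2 hx.2, fun hx =>
        h3 fun hy => hx ⟨hv, hy⟩⟩
    · have hsq := sq_complex v hv (algebraMap F (IK F v) d)
      exact ⟨0, fun hn => absurd hn hv, fun _ y => ⟨fun _ => rfl, fun ha => absurd (Or.inl hsq) ha⟩,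
        fun hx => absurd hx.1 hv, fun _ => rfl⟩
  choose ε h1 h2 h3 h4 using k
  exact ⟨ε, h1, h2, h3, h4⟩

omit [NumberField F] in
/-- The data of the class of a factor. -/
theorem cl_of [CharZero F] {p q r t : F} (hM : p * t - q * r ≠ 0) {A' B' : Matrix (Fin 5) (Fin 5) F}
    (hA' : A' = p • A + q • B) (hB' : B' = r • A + t • B) {w : Fin 5 → F}
    (hw : IsCoprime (Dq.chp A' B') (Dq.dlp A' B' w)) {g s : F[X]} {d : F} (hd : d ≠ 0)
    (hg : g ∣ Dq.chp A' B') (hs : g ∣ Dq.dlp A' B' w - C d * s ^ 2) {b e : F}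
    (hb : g = gf b e) (he : e ≠ 0) : Cl (Pl A B) (pP A' B' b) (pQ B') e d := by
  obtain ⟨hsu1, hsu⟩ := unit_s hw hg hs
  refine ⟨⟨p + b * r, q + b * t, -r, -t, fun h0 => hM (by linear_combination -h0), ?_, ?_⟩,
    ⟨he, hd⟩, ?_, ?_⟩
  · have e0 : Hs (Pl A B 0) = A + A.transpose := Hs_ml A
    have e1 : Hs (Pl A B 1) = B + B.transpose := Hs_ml B
    rw [e0, e1, hA', hB', pP]
    ext i j
    simp only [Matrix.add_apply, Matrix.smul_apply, smul_eq_mul, Matrix.transpose_apply]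
    ring
  · have e0 : Hs (Pl A B 0) = A + A.transpose := Hs_ml A
    have e1 : Hs (Pl A B 1) = B + B.transpose := Hs_ml B
    rw [e0, e1, hB', pQ]
    ext i j
    simp only [Matrix.add_apply, Matrix.smul_apply, smul_eq_mul, Matrix.transpose_apply,
      Matrix.neg_apply]
    ring
  · rw [← mt_psi hb]
    have h1 : ((Hm A' B' g).map (psi hb)).det = psi hb (Hm A' B' g).det :=
      (RingHom.map_det (psi hb) _).symm
    rw [h1, Hm_det hg, map_zero]
  · refine ⟨fun i => psi hb (AdjoinRoot.of g (w i)), psi hb (AdjoinRoot.mk g s), hsu.map _, ?_⟩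
    have h1 : ((Hm A' B' g).map (psi hb)).adjugate = ((Hm A' B' g).adjugate).map (psi hb) :=
      (RingHom.map_adjugate (psi hb) _).symm
    have h2 : (fun i => psi hb (AdjoinRoot.of g (w i))) ⬝ᵥ ((Hm A' B' g).adjugate).map (psi hb) *ᵥ
        (fun i => psi hb (AdjoinRoot.of g (w i))) =
        psi hb ((fun i => AdjoinRoot.of g (w i)) ⬝ᵥ (Hm A' B' g).adjugate *ᵥ
          (fun i => AdjoinRoot.of g (w i))) := by
      rw [RingHom.map_dotProduct]
      congr 1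
      funext i
      exact (RingHom.map_mulVec (psi hb) _ _ i).symm
    rw [← mt_psi hb, h1, h2, Hm_adj, hsu1, map_mul, map_pow, psi_of, Algebra.smul_def]

/-- **Orthogonality in terms of a basis of the pencil.** -/
theorem orth_conv {M : Matrix (Fin 2) (Fin 2) F} (hM : M.det ≠ 0) {A' B' : Matrix (Fin 5) (Fin 5) F}
    (hA' : A' = nA A B M) (hB' : B' = nB A B M) {w : Fin 5 → F}
    (hw : IsCoprime (Dq.chp A' B') (Dq.dlp A' B' w)) (hsep : (Dq.chp A' B').Separable)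
    (h : ∀ (K : Type) [Field K] [Algebra F K], Same (hE K (Pl A B)) (hE K (Pl A' B')))
    {S₀ : Finset (HeightOneSpectrum (𝓞 F))}
    (hS₀ : ∀ v ∉ S₀, Subsingleton (G1 (FK F v) (hE (FK F v) (Pl A' B'))))
    {z₀ : ZA (Pl A B)} (ho : Orth (Pl A B) (clA z₀)) {g s : F[X]} {d : F} (hg1 : g.Monic)
    (hg2 : g.natDegree = 2) (hd : d ≠ 0) (hg : g ∣ Dq.chp A' B')
    (hs : g ∣ Dq.dlp A' B' w - C d * s ^ 2) :
    Dr.Orth A' B' w g d (clA (trZ h z₀)) := by
  refine ⟨S₀, fun S hS z z' c c' h1 h2 => ?_⟩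
  obtain ⟨b, e, hb⟩ := gf_of hg1 hg2
  have he : e ≠ 0 := gf_sep (b := b) (by
    rw [← hb]
    exact hsep.of_dvd hg)
  obtain ⟨z₂, hz1, hz2, hz3, hz4⟩ := exists_fam h z₀ (S := S) (fun v hv => hS₀ v fun hx => hv (hS hx))
    z z' (fun v hv => (h1 v hv).1) fun v hv => (h2 v hv).1
  obtain ⟨ε, e1, e2, e3, e4⟩ := inv_fin hw hg hs hb he S z c fun v hv => (h1 v hv).2
  obtain ⟨ε', e1', e2', e3', e4'⟩ := inv_inf hw hg hs hb he z' c' fun v hv => (h2 v hv).2
  rw [Matrix.det_fin_two] at hM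
  have key := ho (pP A' B' b) (pQ B') e d (cl_of hM hA' hB' hw hd hg hs hb he) z₂ ε ε' hz1
    ((S.finite_toSet).subset (by
      intro v hv
      by_contra hcon
      exact hv (e4 v fun hx => hcon hx.1)))
    (fun v => by
      rw [cy]
      by_cases hv : v ∈ S
      · rw [hz2 v hv]
        exact e1 v hv
      · rw [hz3 v hv]
        exact e2 v hv)
    (fun v => by
      rw [cy]
      by_cases hv : v.IsReal
      · rw [hz4 v hv]
        exact e1' v hv
      · exact e2' v hv _)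
  rw [finsum_card S _ (fun v hx => hx.1) ε e3 e4, sum_card _ ε' e3' e4', ← Nat.cast_add,
    ZMod.natCast_eq_zero_iff_even] at key
  exact key

end Ob
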