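import Pool.Agent.Lib.MP_f80667_ag.Fa.Dfs

/-!
Orthogonality to classes of order `2` in the Brauer group of an intersection `X` of two quadrics
`f 0 = f 1 = 0` in `P^4` over a number field `F`.

The classes are attached to pairs of conjugate degenerate members of the pencil. Let `e ∈ F^*`,
`E = F[√e]` (`= F[T] / (T² - e)`), and let `P`, `Q` be the symmetric matrices of a basis of the pencil,
such that `H = P + √e Q` is degenerate. Assume that its discriminant (of the nondegenerate quotient), the
value `adj(H)(w, w)` for any `w ∈ E^5` where it is invertible, is `d s²` with `d ∈ F^*` and `s ∈ E^*`.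
For an isotropic vector `R` of `H` over `E_v = F_v[√e]` the linear form `R^T H y` is the equation of the
tangent hyperplane at `R`, and the class is given over `F_v` by the quaternion algebra
`(N (R^T H y) / l(y)², d)`, where `N` is the norm from `E_v` to `F_v` and `l` is a linear form. If `d` is
a square in `E_v`, the class is constant over `F_v`.

* `Hs q`: the symmetric matrix of the second partial derivatives of the quadratic form `q`.
* `mt P Q e`: the matrix `P + √e Q`.
* `Nf c y`: for a linear form with coefficients `c i ∈ k[√e]` and `y ∈ L^n`, the norm from `L[√e]` to `L`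
  of the value at `y`.
* `Vl c l z r`: `r ∈ k` is the value of the function `Nf c y / l(y)²` at the zero-cycle `z`.
* `Inv P Q e d z ε`: `ε ∈ ℤ/2` is a value of the local invariant of the class at the zero-cycle `z`.
* `Cl f P Q e d`: `P`, `Q`, `e`, `d` are the data of a class.
* `Orth f a`: the family of classes of zero-cycles `a` is orthogonal to all these classes.
-/

open Matrix IsDedekindDomain NumberField
open scoped LinearAlgebra.Projectivization

namespace Ob

open ZC

section defs

variable {k : Type} [Field k] {n : ℕ}

/-- The symmetric matrix of the second partial derivatives of a quadratic form. -/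
noncomputable def Hs (q : MvPolynomial (Fin n) k) : Matrix (Fin n) (Fin n) k := fun i j =>
  MvPolynomial.constantCoeff (MvPolynomial.pderiv i (MvPolynomial.pderiv j q))

/-- The matrix `P + √e Q` over `k[√e]`. -/
def mt (P Q : Matrix (Fin n) (Fin n) k) (e : k) : Matrix (Fin n) (Fin n) (QuadraticAlgebra k e 0) :=
  fun i j => ⟨P i j, Q i j⟩

/-- The value at `y ∈ L^n` of the linear form with coefficients `l i ∈ k`. -/
def Lf (l : Fin n → k) {L : Type} [Field L] [Algebra k L] (y : Fin n → L) : L :=
  ∑ i, algebraMap k L (l i) * y i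

/-- The norm from `L[√e]` to `L` of the value at `y ∈ L^n` of the linear form with coefficients
`c i ∈ k[√e]`. -/
def Nf {e : k} (c : Fin n → QuadraticAlgebra k e 0) {L : Type} [Field L] [Algebra k L]
    (y : Fin n → L) : L :=
  Lf (fun i => (c i).re) y ^ 2 - algebraMap k L e * Lf (fun i => (c i).im) y ^ 2

/-- The value of the function `Nf c y / l(y)²` at the point `y` over the algebraic closure. -/
noncomputable def fn {e : k} (c : Fin n → QuadraticAlgebra k e 0) (l : Fin n → k)
    (y : ℙ (AlgebraicClosure k) (Fin n → AlgebraicClosure k)) : AlgebraicClosure k :=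
  Nf c y.rep / Lf l y.rep ^ 2

/-- `r` is the value of the function `Nf c y / l(y)²` at the zero-cycle `z`, and this function has no
zeros and poles on the support of `z` (`fn c l y = 0` if `l` vanishes at `y`). -/
def Vl {e : k} (c : Fin n → QuadraticAlgebra k e 0) (l : Fin n → k)
    (z : ℙ (AlgebraicClosure k) (Fin n → AlgebraicClosure k) →₀ ℤ) (r : k) : Prop :=
  (∀ y ∈ z.support, fn c l y ≠ 0) ∧
    algebraMap k (AlgebraicClosure k) r = z.prod (fun y m => fn c l y ^ m)

/-- `ε` is a value of the local invariant at the zero-cycle `z` over `k` of the class given by the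
symmetric matrix `H = P + √e Q` and `d ∈ k`. If `d` is a square in `k[√e]`, i.e. `d` or `d e` is a square
in `k`, then `ε = 0`. Otherwise there are an isotropic vector `R` of `H` over `k[√e]` and a linear form
`l` over `k`, such that `ε = 0` if and only if the value of `N (R^T H y) / l(y)²` at `z` is a norm from
`k(√d)`. -/
def Inv (P Q : Matrix (Fin n) (Fin n) k) (e d : k)
    (z : ℙ (AlgebraicClosure k) (Fin n → AlgebraicClosure k) →₀ ℤ) (ε : ZMod 2) : Prop :=
  (IsSquare d ∨ IsSquare (d * e) → ε = 0) ∧
  (¬ (IsSquare d ∨ IsSquare (d * e)) →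
    ∃ (R : Fin n → QuadraticAlgebra k e 0) (l : Fin n → k) (r : k),
      R ⬝ᵥ mt P Q e *ᵥ R = 0 ∧ Vl (R ᵥ* mt P Q e) l z r ∧
      (ε = 0 ↔ ∃ a b : k, r = a ^ 2 - d * b ^ 2))

/-- The discriminant of the degenerate symmetric matrix `H` over `k[√e]` is `d` up to squares of units. -/
def Ds {e : k} (H : Matrix (Fin n) (Fin n) (QuadraticAlgebra k e 0)) (d : k) : Prop :=
  ∃ (w : Fin n → QuadraticAlgebra k e 0) (s : QuadraticAlgebra k e 0),
    IsUnit s ∧ w ⬝ᵥ H.adjugate *ᵥ w = d • s ^ 2

/-- `P`, `Q`, `e`, `d` are the data of a class: `P`, `Q` are the symmetric matrices of a basis of the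
pencil, and `P + √e Q` is degenerate with discriminant `d ∈ k^*` up to squares of units of `k[√e]`. -/
structure Cl (f : Fin 2 → MvPolynomial (Fin n) k) (P Q : Matrix (Fin n) (Fin n) k) (e d : k) :
    Prop where
  basis : ∃ p q r s : k, p * s - q * r ≠ 0 ∧ P = p • Hs (f 0) + q • Hs (f 1) ∧
    Q = r • Hs (f 0) + s • Hs (f 1)
  ne : e ≠ 0 ∧ d ≠ 0
  det : (mt P Q e).det = 0
  disc : Ds (mt P Q e) d

end defs

section orth

variable {F : Type} [Field F] [NumberField F] {n : ℕ}

/-- The zero-cycle. -/
def cy {K : Type} [Field K] {κ : Type} {h : κ → MvPolynomial (Fin n) K} (z : Z1 K h) :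
    ℙ (AlgebraicClosure K) (Fin n → AlgebraicClosure K) →₀ ℤ := z.1

/-- The local invariant over an extension `K` of `F`. -/
def InvK (K : Type) [Field K] [Algebra F K] (P Q : Matrix (Fin n) (Fin n) F) (e d : F)
    (z : ℙ (AlgebraicClosure K) (Fin n → AlgebraicClosure K) →₀ ℤ) (ε : ZMod 2) : Prop :=
  Inv (P.map (algebraMap F K)) (Q.map (algebraMap F K)) (algebraMap F K e) (algebraMap F K d) z ε

/-- The family `a` of classes of zero-cycles of degree `0` is orthogonal to the classes of order `2` in
the Brauer group which are attached to the pairs of conjugate degenerate members of the pencil: for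
all local invariants `ε v`, `ε' v` of such a class at zero-cycles which represent `a`, almost all of
them `0`, the sum is `0`. -/
def Orth (f : Fin 2 → MvPolynomial (Fin n) F) (a : FA f) : Prop :=
  ∀ (P Q : Matrix (Fin n) (Fin n) F) (e d : F), Cl f P Q e d →
    ∀ (z : ZA f) (ε : HeightOneSpectrum (𝓞 F) → ZMod 2) (ε' : InfinitePlace F → ZMod 2),
      clA z = a → (Function.support ε).Finite →
      (∀ v, InvK (FK F v) P Q e d (cy (z.1 v)) (ε v)) →
      (∀ v, InvK (IK F v) P Q e d (cy (z.2 v)) (ε' v)) →
      (∑ᶠ v, ε v) + (∑ v, ε' v) = 0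

end orth

end Ob
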