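import Pool.Agent.Lib.MP_f80667_ag.Ob.Cv

/-! The ring `k[T] / g` for `g = T² + 2 b T + b² - e` and the ring `k[√e]`. -/

open Polynomial Matrix

namespace Ob

section

variable {k : Type} [Field k]

/-- The polynomial `T² + 2 b T + b² - e = (T + b)² - e`. -/
noncomputable def gf (b e : k) : k[X] := (X + C b) ^ 2 - C e

theorem gf_map {L : Type} [Field L] [Algebra k L] (b e : k) :
    (gf b e).map (algebraMap k L) = gf (algebraMap k L b) (algebraMap k L e) := by
  simp [gf]

theorem gf_of [CharZero k] {g : k[X]} (hg : g.Monic) (h2 : g.natDegree = 2) :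
    ∃ b e : k, g = gf b e := by
  refine ⟨g.coeff 1 / 2, (g.coeff 1 / 2) ^ 2 - g.coeff 0, ?_⟩
  have h3 : g = C (g.coeff 2) * X ^ 2 + C (g.coeff 1) * X + C (g.coeff 0) := by
    conv_lhs => rw [g.as_sum_range_C_mul_X_pow, h2]
    rw [Finset.sum_range_succ, Finset.sum_range_succ, Finset.sum_range_one, pow_zero, pow_one,
      mul_one]
    ring
  have h4 : g.coeff 2 = 1 := by
    rw [← h2]
    exact hg
  have h5 : (2 : k) ≠ 0 := two_ne_zero
  rw [h4, C_1, one_mul] at h3
  rw [gf]
  conv_lhs => rw [h3]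
  have h6 : C (g.coeff 1) = 2 * C (g.coeff 1 / 2) := by
    have h7 : (2 : k[X]) = C 2 := rfl
    rw [h7, ← C_mul]
    congr 1
    field_simp
  rw [h6]
  simp only [map_sub, map_pow]
  ring

/-- If `e = 0` the polynomial is a square. -/
theorem gf_sep {b e : k} (h : (gf b e).Separable) : e ≠ 0 := by
  rintro rfl
  have h1 : gf b (0 : k) = (X + C b) * (X + C b) := by
    rw [gf, C_0]
    ring
  rw [h1] at h
  have h2 := h.squarefree (X + C b) dvd_rfl
  have h3 := natDegree_eq_zero_of_isUnit h2
  rw [natDegree_X_add_C] at h3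
  exact one_ne_zero h3

/-- The homomorphism. -/
noncomputable def psi {g : k[X]} {b e : k} (hg : g = gf b e) :
    AdjoinRoot g →+* QuadraticAlgebra k e 0 :=
  AdjoinRoot.lift (algebraMap k (QuadraticAlgebra k e 0)) ⟨-b, 1⟩ (by
    rw [hg, gf, eval₂_sub, eval₂_pow, eval₂_add, eval₂_X, eval₂_C, eval₂_C]
    ext
    · simp [pow_two, QuadraticAlgebra.algebraMap_re, QuadraticAlgebra.algebraMap_im]
    · simp [pow_two, QuadraticAlgebra.algebraMap_re, QuadraticAlgebra.algebraMap_im])

variable {g : k[X]} {b e : k} (hg : g = gf b e)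

theorem psi_of (x : k) : psi hg (AdjoinRoot.of _ x) = algebraMap k _ x := AdjoinRoot.lift_of _

theorem psi_root : psi hg (AdjoinRoot.root _) = ⟨-b, 1⟩ := AdjoinRoot.lift_root _

include hg in
theorem root_sq : (AdjoinRoot.root g + AdjoinRoot.of _ b) *
    (AdjoinRoot.root g + AdjoinRoot.of _ b) = AdjoinRoot.of _ e := by
  have h1 : AdjoinRoot.mk g (gf b e) = 0 := by
    rw [← hg]
    exact AdjoinRoot.mk_self
  rw [gf] at h1
  simp only [map_sub, map_pow, map_add, AdjoinRoot.mk_X, AdjoinRoot.mk_C] at h1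
  linear_combination h1

/-- The norm. -/
theorem norm_psi (x : AdjoinRoot g) :
    Algebra.norm k x = (psi hg x).re ^ 2 - e * (psi hg x).im ^ 2 := by
  let ψ : AdjoinRoot g →ₐ[k] QuadraticAlgebra k e 0 :=
    { psi hg with commutes' := fun r => psi_of hg r }
  let χ : QuadraticAlgebra k e 0 →ₐ[k] AdjoinRoot g :=
    QuadraticAlgebra.lift ⟨AdjoinRoot.root _ + AdjoinRoot.of _ b, by
      rw [root_sq hg, zero_smul, add_zero, Algebra.smul_def, mul_one]
      rfl⟩
  have hψ : ∀ y, ψ y = psi hg y := fun y => rfl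
  have hχ : χ ⟨0, 1⟩ = AdjoinRoot.root _ + AdjoinRoot.of _ b := by
    simp [χ, QuadraticAlgebra.lift]
  have h1 : χ.comp ψ = AlgHom.id k _ := by
    apply AdjoinRoot.algHom_ext
    rw [AlgHom.comp_apply, hψ, psi_root, AlgHom.id_apply]
    have h3 : (⟨-b, 1⟩ : QuadraticAlgebra k e 0) = algebraMap k _ (-b) + ⟨0, 1⟩ := by
      ext <;> simp
    rw [h3, map_add, hχ, AlgHom.commutes, AdjoinRoot.algebraMap_eq, map_neg]
    ring
  have h2 : ψ.comp χ = AlgHom.id k _ := by
    apply QuadraticAlgebra.algHom_ext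
    have h3 : (QuadraticAlgebra.omega : QuadraticAlgebra k e 0) = ⟨0, 1⟩ := by
      ext <;> simp
    rw [AlgHom.comp_apply, AlgHom.id_apply, h3, hχ, hψ, map_add, psi_root, psi_of]
    ext <;> simp
  let E : AdjoinRoot g ≃ₐ[k] QuadraticAlgebra k e 0 := AlgEquiv.ofAlgHom ψ χ h2 h1
  have h3 : Algebra.norm k (E x) = Algebra.norm k x := Algebra.norm_eq_of_algEquiv E x
  have h4 : E x = psi hg x := rfl
  rw [← h3, h4]
  have h5 : Algebra.norm k (psi hg x) = (psi hg x).norm := by
    rw [← QuadraticAlgebra.det_toLinearMap_eq_norm]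
    rfl
  rw [h5, QuadraticAlgebra.norm_def]
  ring

include hg in
/-- The square classes. -/
theorem sq_iff [CharZero k] {d : k} (he : e ≠ 0) :
    IsSquare (AdjoinRoot.of g d) ↔ IsSquare d ∨ IsSquare (d * e) := by
  constructor
  · rintro ⟨t, ht⟩
    have h1 := congrArg (psi hg) ht
    rw [map_mul, psi_of] at h1
    have hr := congrArg QuadraticAlgebra.re h1
    have hi := congrArg QuadraticAlgebra.im h1
    simp only [QuadraticAlgebra.algebraMap_re, QuadraticAlgebra.algebraMap_im,
      QuadraticAlgebra.re_mul, QuadraticAlgebra.im_mul] at hr hi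
    generalize (psi hg t).re = x at hr hi
    generalize (psi hg t).im = y at hr hi
    by_cases h0 : y = 0
    · left
      exact ⟨x, by rw [hr, h0]; ring⟩
    · by_cases hx : x = 0
      · right
        exact ⟨e * y, by rw [hr, hx]; ring⟩
      · exfalso
        have h3 : (2 : k) * (x * y) = 0 := by linear_combination -hi
        exact mul_ne_zero two_ne_zero (mul_ne_zero hx h0) h3
  · rintro (⟨x, hx⟩ | ⟨x, hx⟩)
    · exact ⟨AdjoinRoot.of _ x, by rw [hx, map_mul]⟩
    · refine ⟨AdjoinRoot.of _ (x / e) * (AdjoinRoot.root _ + AdjoinRoot.of _ b), ?_⟩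
      have h1 : d = x / e * (x / e) * e := by
        field_simp
        linear_combination hx
      calc AdjoinRoot.of g d = AdjoinRoot.of _ (x / e) * AdjoinRoot.of _ (x / e) *
            AdjoinRoot.of _ e := by rw [h1, map_mul, map_mul]
        _ = _ := by rw [← root_sq hg]; ring

/-- The base change of `k[√e]`. -/
noncomputable def mq (e : k) (L : Type) [Field L] [Algebra k L] :
    QuadraticAlgebra k e 0 →+* QuadraticAlgebra L (algebraMap k L e) 0 where
  toFun x := ⟨algebraMap k L x.re, algebraMap k L x.im⟩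
  map_one' := by ext <;> simp [QuadraticAlgebra.re_one, QuadraticAlgebra.im_one]
  map_mul' x y := by ext <;> simp
  map_zero' := by ext <;> simp
  map_add' x y := by ext <;> simp

theorem mq_re (L : Type) [Field L] [Algebra k L] (x : QuadraticAlgebra k e 0) :
    (mq e L x).re = algebraMap k L x.re := rfl

theorem mq_im (L : Type) [Field L] [Algebra k L] (x : QuadraticAlgebra k e 0) :
    (mq e L x).im = algebraMap k L x.im := rfl

theorem psi_up {L : Type} [Field L] [Algebra k L]
    (hL : g.map (algebraMap k L) = gf (algebraMap k L b) (algebraMap k L e)) (x : AdjoinRoot g) :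
    psi hL (Dr.up g L x) = mq e L (psi hg x) := by
  have h : (psi hL).comp (Dr.up g L) = (mq e L).comp (psi hg) := by
    apply AdjoinRoot.ringHom_ext
    · ext x
      · simp [up_of, psi_of, mq_re]
      · simp [up_of, psi_of, mq_im]
    · rw [RingHom.comp_apply, RingHom.comp_apply, Dr.up_root, psi_root, psi_root]
      ext
      · simp [mq_re]
      · simp [mq_im]
  exact RingHom.congr_fun h x

end

end Ob
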