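import Pool.Agent.Lib.MP_f80667_ag.Ob.Dfs
import Pool.Agent.Lib.MP_f80667_ag.Bx.Glb

/-! The groups of zero-cycles depend on the set of zeros only; the completed groups. -/

open IsDedekindDomain NumberField
open scoped LinearAlgebra.Projectivization

namespace Ob

open ZC

section same

variable {K : Type} [Field K] {n : ℕ} {κ κ' : Type}

/-- The two systems of equations have the same zeros. -/
def Same (f : κ → MvPolynomial (Fin n) K) (q : κ' → MvPolynomial (Fin n) K) : Prop :=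
  ∀ (E : Type) [Field E] [Algebra K E] (x : Fin n → E), Zer f E x ↔ Zer q E x

variable {f : κ → MvPolynomial (Fin n) K} {q : κ' → MvPolynomial (Fin n) K}

theorem Same.symm (h : Same f q) : Same q f := fun E _ _ x => (h E x).symm

theorem Same.ratEq (h : Same f q) :
    ZC.ratEq (AlgebraicClosure K) f = ZC.ratEq (AlgebraicClosure K) q := by
  unfold ZC.ratEq
  congr 1
  ext z
  constructor
  · rintro ⟨E, hE, hA, hF, g, p, hg, hp, hz, h1⟩
    exact ⟨E, hE, hA, hF, g, p, hg, hp, (h E p).1 hz, h1⟩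
  · rintro ⟨E, hE, hA, hF, g, p, hg, hp, hz, h1⟩
    exact ⟨E, hE, hA, hF, g, p, hg, hp, (h E p).2 hz, h1⟩

theorem Same.cyc (h : Same f q) :
    ZC.cyc (AlgebraicClosure K) f = ZC.cyc (AlgebraicClosure K) q := by
  ext z
  constructor
  · rintro ⟨h1, h2⟩
    exact ⟨fun x hx => (h _ _).1 (h1 x hx), h2⟩
  · rintro ⟨h1, h2⟩
    exact ⟨fun x hx => (h _ _).2 (h1 x hx), h2⟩

theorem Same.D0 (h : Same f q) : ZC.D0 K f = ZC.D0 K q := by
  unfold ZC.D0 ZC.cyc0
  rw [h.cyc]

theorem Same.normCyc (h : Same f q) :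
    ZC.normCyc (AlgebraicClosure K) f = ZC.normCyc (AlgebraicClosure K) q := by
  unfold ZC.normCyc
  congr 1
  ext z
  constructor
  · rintro ⟨x, hx, h1⟩
    exact ⟨x, (h _ _).1 hx, h1⟩
  · rintro ⟨x, hx, h1⟩
    exact ⟨x, (h _ _).2 hx, h1⟩

theorem cls_eq {x y : Z1 K f} :
    G1.cls x = G1.cls y ↔ y.1 - x.1 ∈ ZC.ratEq (AlgebraicClosure K) f := by
  have h1 : G1.cls x = G1.cls y ↔ -(show D0 K f from x) + (show D0 K f from y) ∈
      (ZC.ratEq (AlgebraicClosure K) f).addSubgroupOf (D0 K f) := QuotientAddGroup.eq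
  rw [h1, AddSubgroup.mem_addSubgroupOf]
  have h2 : ((-(show D0 K f from x) + (show D0 K f from y) : D0 K f) :
      ℙ (AlgebraicClosure K) (Fin n → AlgebraicClosure K) →₀ ℤ) = y.1 - x.1 := by
    rw [sub_eq_neg_add]
    rfl
  rw [h2]

theorem clsb_eq {x y : Z1 K f} :
    G1b.cls x = G1b.cls y ↔ y.1 - x.1 ∈ ZC.ratEq (AlgebraicClosure K) f ⊔
      ZC.normCyc (AlgebraicClosure K) f := by
  have h1 : G1b.cls x = G1b.cls y ↔ -(show D0 K f from x) + (show D0 K f from y) ∈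
      (ZC.ratEq (AlgebraicClosure K) f ⊔ ZC.normCyc (AlgebraicClosure K) f).addSubgroupOf
        (D0 K f) := QuotientAddGroup.eq
  rw [h1, AddSubgroup.mem_addSubgroupOf]
  have h2 : ((-(show D0 K f from x) + (show D0 K f from y) : D0 K f) :
      ℙ (AlgebraicClosure K) (Fin n → AlgebraicClosure K) →₀ ℤ) = y.1 - x.1 := by
    rw [sub_eq_neg_add]
    rfl
  rw [h2]

/-- The same cycle. -/
noncomputable def tr (h : Same f q) (z : Z1 K f) : Z1 K q := ⟨z.1, by rw [← h.D0]; exact z.2⟩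

theorem tr_cls (h : Same f q) {x y : Z1 K f} :
    G1.cls (tr h x) = G1.cls (tr h y) ↔ G1.cls x = G1.cls y := by
  rw [cls_eq, cls_eq, h.ratEq]
  rfl

theorem tr_clsb (h : Same f q) {x y : Z1 K f} :
    G1b.cls (tr h x) = G1b.cls (tr h y) ↔ G1b.cls x = G1b.cls y := by
  rw [clsb_eq, clsb_eq, h.ratEq, h.normCyc]
  rfl

theorem Same.subs (h : Same f q) (hs : Subsingleton (G1 K q)) : Subsingleton (G1 K f) := by
  refine ⟨fun a b => ?_⟩
  obtain ⟨x, rfl⟩ := G1.cls_surj a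
  obtain ⟨y, rfl⟩ := G1.cls_surj b
  exact (tr_cls h).1 (Subsingleton.elim _ _)

end same

section adele

variable {F : Type} [Field F] [NumberField F] {n : ℕ} {κ κ' : Type}
  {f : κ → MvPolynomial (Fin n) F} {q : κ' → MvPolynomial (Fin n) F}

/-- The same family of cycles. -/
noncomputable def trZ (h : ∀ (K : Type) [Field K] [Algebra F K], Same (hE K f) (hE K q)) (z : ZA f) : ZA q :=
  (fun v => tr (h _) (z.1 v), fun v => tr (h _) (z.2 v))

theorem clA_tr (h : ∀ (K : Type) [Field K] [Algebra F K], Same (hE K f) (hE K q)) {x y : ZA f} :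
    clA (trZ h x) = clA (trZ h y) ↔ clA x = clA y := by
  have key : ∀ {κ'' : Type} {p : κ'' → MvPolynomial (Fin n) F} {a b : ZA p},
      clA a = clA b ↔ (∀ v, G1.cls (a.1 v) = G1.cls (b.1 v)) ∧
        ∀ v, G1b.cls (a.2 v) = G1b.cls (b.2 v) := by
    intro κ'' p a b
    constructor
    · intro hab
      exact ⟨fun v => congrFun (congrArg Prod.fst hab) v,
        fun v => congrFun (congrArg Prod.snd hab) v⟩
    · rintro ⟨h1, h2⟩
      exact Prod.ext (funext h1) (funext h2)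
  rw [key, key]
  exact and_congr (forall_congr' fun v => tr_cls (h _)) (forall_congr' fun v => tr_clsb (h _))

theorem dgA_tr (h0 : Same f q)
    (h : ∀ (K : Type) [Field K] [Algebra F K], Same (hE K f) (hE K q))
    (hf : ∀ j, ∃ d, (f j).IsHomogeneous d) (hq : ∀ j, ∃ d, (q j).IsHomogeneous d) (c : Z1 F f) :
    dgA hq (tr h0 c) = trZ h (dgA hf c) := rfl

theorem clA_surj (a : FA f) : ∃ z : ZA f, clA z = a := by
  choose z hz using fun v => G1.cls_surj (a.1 v)
  choose z' hz' using fun v => (Quotient.exists_rep (a.2 v) : ∃ y : Z1 (IK F v) _, G1b.cls y = a.2 v)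
  exact ⟨(z, z'), Prod.ext (funext hz) (funext hz')⟩

/-- Transport of the surjectivity. -/
theorem surj_tr (h0 : Same f q)
    (h : ∀ (K : Type) [Field K] [Algebra F K], Same (hE K f) (hE K q))
    (hf : ∀ j, ∃ d, (f j).IsHomogeneous d) (hq : ∀ j, ∃ d, (q j).IsHomogeneous d) {z : ZA f}
    (hz : ∃ c : Z1 F q, clA (dgA hq c) = clA (trZ h z)) :
    ∃ c : Z1 F f, clA (dgA hf c) = clA z := by
  obtain ⟨c, hc⟩ := hz
  exact ⟨tr h0.symm c, (clA_tr h).1 hc⟩

/-- If the adelic group has a finite exponent, an element of the completion is represented by one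
element. -/
theorem imD_of_exp (hh : ∀ j, ∃ d, (f j).IsHomogeneous d) {N : ℕ+}
    (hN : ∀ a : FA f, (N : ℕ) • a = 0) {z : LHat (FA f)}
    (H : ∀ a : FA f, z.Rep N a → ∃ c : Z1 F f, clA (dgA hh c) = a) : ImD hh z := by
  obtain ⟨a, ha⟩ := z.exists_rep N
  obtain ⟨c, hc⟩ := H a ha
  refine ⟨⟨fun m => QuotientAddGroup.mk (G1.cls c), fun m m' hm b hb => ?_⟩, fun m => ⟨c, rfl, ?_⟩⟩
  · rw [QuotientAddGroup.eq] at hb ⊢
    obtain ⟨y, hy⟩ := hb
    obtain ⟨k, rfl⟩ := hm
    refine ⟨(k : ℕ) • y, ?_⟩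
    rw [← hy]
    simp only [nsmulAddMonoidHom_apply, PNat.mul_coe, mul_smul]
  · rw [hc]
    obtain ⟨b, hb⟩ := z.exists_rep (N * m)
    have h1 : z.Rep N b := hb.of_dvd (by rw [PNat.mul_coe]; exact Dvd.intro _ rfl)
    obtain ⟨d, hd⟩ := ha.sub h1
    have h2 : a = b := by
      rw [hN d] at hd
      exact (sub_eq_zero.1 hd.symm).symm
    rw [h2]
    exact hb.of_dvd (by rw [PNat.mul_coe]; exact Dvd.intro_left _ rfl)

end adele

end Ob
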